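import Pool.Agent.X45.Abs.Func

set_option autoImplicit false

/-!
The inequality for coloured 3-graphs obtained from a certificate with absolute colours
(adapted from `Pool.Agent.Y439.Col.Main`).
-/

namespace Pool.Agent.X45.Abs
open Finset Pool.Agent.Y439.Col

structure Good (val : ℕ → ℕ → ℕ → ℕ) (rows : ℕ → List (List ℤ)) (OFF : ℕ) : Prop where
  hval : ∀ t < 57, ∀ f < 24, ∀ g < 24, (val t f g : ℤ) = ent (rows t) f g + OFF
  hpsd : ∀ t < 57, psd 24 1 (rows t) = true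

variable {val : ℕ → ℕ → ℕ → ℕ} {rows : ℕ → List (List ℤ)} {OFF : ℕ}

theorem Good.comm (hG : Good val rows OFF) {t f g : ℕ} (ht : t < 57) (hf : f < 24) (hg : g < 24) :
    val t f g = val t g f := by
  have h1 := hG.hval t ht f hf g hg
  have h2 := hG.hval t ht g hg f hf
  rw [ent_comm] at h2
  have : (val t f g : ℤ) = val t g f := by rw [h1, h2]
  exact_mod_cast this

theorem Good.sum_ge (hG : Good val rows OFF) {Y : Type*} [Fintype Y] (t : ℕ) (ht : t < 57)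
    (fl : Y → ℕ) (hf : ∀ y, fl y < 24) :
    OFF * Fintype.card Y ^ 2 ≤ ∑ y, ∑ z, val t (fl y) (fl z) := by
  have h := sum_nonneg_of_psd (univ : Finset Y) fl 24 (rows t) (hG.hpsd t ht)
  have e : ∑ y, ∑ z, ((val t (fl y) (fl z) : ℕ) : ℤ) =
      ∑ y, ∑ z, ent (rows t) (fl y) (fl z) + OFF * Fintype.card Y ^ 2 := by
    have : ∀ y z, ((val t (fl y) (fl z) : ℕ) : ℤ) = ent (rows t) (fl y) (fl z) + OFF :=
      fun y z => hG.hval t ht _ (hf y) _ (hf z)
    simp only [this, sum_add_distrib, sum_const, card_univ, nsmul_eq_mul]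
    ring
  have h2 : ((OFF * Fintype.card Y ^ 2 : ℕ) : ℤ) ≤ ((∑ y, ∑ z, val t (fl y) (fl z) : ℕ) : ℤ) := by
    push_cast
    rw [e]
    linarith
  exact_mod_cast h2

variable {V : Type*} [Fintype V]

theorem v3_sum (hG : Good val rows OFF) (c : V → ℕ) (hc : ∀ x, c x < 3) (e : V → V → V → ℕ)
    (e1 : ∀ x y z, e x y z ≤ 1) :
    OFF * Fintype.card V ^ 5 ≤
      ∑ x : Fin 5 → V, v3 val c e (x 0) (x 1) (x 2) (x 3) (x 4) := by
  rw [sum_five]
  have h : ∀ a b d : V, OFF * Fintype.card V ^ 2 ≤ ∑ u, ∑ v, v3 val c e a b d u v := by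
    intro a b d
    exact hG.sum_ge (ty (c a) (c b) (c d) (e a b d)) (ty_lt _ _ _ _ (hc _) (hc _) (hc _) (e1 _ _ _))
      (fun u => f3 (c u) (e a b u) (e a d u) (e b d u))
      (fun u => f3_lt _ _ _ _ (hc _) (e1 _ _ _) (e1 _ _ _) (e1 _ _ _))
  calc OFF * Fintype.card V ^ 5
      = ∑ _a : V, ∑ _b : V, ∑ _d : V, OFF * Fintype.card V ^ 2 := by
        simp only [sum_const, card_univ, smul_eq_mul]; ring
    _ ≤ _ := sum_le_sum fun a _ => sum_le_sum fun b _ => sum_le_sum fun d _ => h a b d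

theorem v1_sum (hG : Good val rows OFF) (c : V → ℕ) (hc : ∀ x, c x < 3) (e : V → V → V → ℕ)
    (e1 : ∀ x y z, e x y z ≤ 1) :
    OFF * Fintype.card V ^ 5 ≤
      ∑ x : Fin 5 → V, v1 val c e (x 0) (x 1) (x 2) (x 3) (x 4) := by
  rw [sum_five]
  have h : ∀ a : V, OFF * Fintype.card V ^ 4 ≤ ∑ y, ∑ z, ∑ u, ∑ w, v1 val c e a y z u w := by
    intro a
    have hta : Nat.add 54 (c a) < 57 := by
      have := hc a
      show 54 + c a < 57
      omega
    have h1 := hG.sum_ge (Y := V × V) (Nat.add 54 (c a)) hta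
      (fun p => f1 (c p.1) (c p.2) (e a p.1 p.2)) (fun p => f1_lt _ _ _ (hc _) (hc _) (e1 _ _ _))
    rw [Fintype.card_prod] at h1
    have h2 : ∑ y : V × V, ∑ z : V × V, val (Nat.add 54 (c a)) (f1 (c y.1) (c y.2) (e a y.1 y.2))
        (f1 (c z.1) (c z.2) (e a z.1 z.2)) = ∑ y, ∑ z, ∑ u, ∑ w, v1 val c e a y z u w := by
      rw [Fintype.sum_prod_type]
      refine sum_congr rfl fun y _ => sum_congr rfl fun z _ => ?_
      rw [Fintype.sum_prod_type]
      rfl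
    rw [h2] at h1
    calc OFF * Fintype.card V ^ 4 = OFF * (Fintype.card V * Fintype.card V) ^ 2 := by ring
      _ ≤ _ := h1
  calc OFF * Fintype.card V ^ 5 = ∑ _a : V, OFF * Fintype.card V ^ 4 := by
        simp only [sum_const, card_univ, smul_eq_mul]; ring
    _ ≤ _ := sum_le_sum fun a _ => h a

/-- The main inequality. -/
theorem main (hG : Good val rows OFF) (ind : ℕ → Bool) (W K lam kc : ℕ) (hkc : kc ≤ 3) (pt : Pat)
    (hchk : ∀ C0 C1 C2 C3 C4 : ℕ, C0 ≤ C1 → C1 ≤ C2 → C2 ≤ C3 → C3 ≤ C4 → C4 < kc →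
      chk ind val W K lam pt C0 C1 C2 C3 C4 = true)
    (c : V → ℕ) (hc : ∀ x, c x < kc) (e : V → V → V → ℕ) (e1 : ∀ x y z, e x y z ≤ 1)
    (s1 : ∀ x y z, e x y z = e y x z) (s2 : ∀ x y z, e x y z = e x z y)
    (hin : ∀ x y z, ind (c x) = true → c x = c y → c y = c z → e x y z = 0)
    (hK : ∀ x y z w, e x y z = 0 ∨ e x y w = 0 ∨ e x z w = 0 ∨ e y z w = 0) :
    90 * W * (Fintype.card V ^ 2 * ∑ a, ∑ b, ∑ d, e a b d) + 75 * OFF * Fintype.card V ^ 5 ≤
      K * Fintype.card V ^ 5 +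
        120 * lam * ∑ x : Fin 5 → V, pg pt c e (x 0) (x 1) (x 2) (x 3) (x 4) := by
  have hc3 : ∀ x, c x < 3 := fun x => lt_of_lt_of_le (hc x) hkc
  -- the pointwise inequality
  have key : ∀ x0 x1 x2 x3 x4 : V,
      S60 (v3 val c e) x0 x1 x2 x3 x4 + S15 (v1 val c e) x0 x1 x2 x3 x4 +
        9 * W * S10 e x0 x1 x2 x3 x4 ≤
      K + lam * S120 (pg pt c e) x0 x1 x2 x3 x4 := by
    have hv3 : ∀ a b d u v, v3 val c e a b d u v = v3 val c e a b d v u := fun a b d u v =>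
      hG.comm (ty_lt _ _ _ _ (hc3 _) (hc3 _) (hc3 _) (e1 _ _ _))
        (f3_lt _ _ _ _ (hc3 _) (e1 _ _ _) (e1 _ _ _) (e1 _ _ _))
        (f3_lt _ _ _ _ (hc3 _) (e1 _ _ _) (e1 _ _ _) (e1 _ _ _))
    have hk1 : ∀ a y z u w, v1 val c e a y z u w = v1 val c e a z y u w := fun a y z u w => by
      unfold v1 w1
      rw [f1_comm (c y) (c z), s2 a y z]
    have hk2 : ∀ a y z u w, v1 val c e a y z u w = v1 val c e a y z w u := fun a y z u w => by
      unfold v1 w1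
      rw [f1_comm (c u) (c w), s2 a u w]
    have hk3 : ∀ a y z u w, v1 val c e a y z u w = v1 val c e a u w y z := fun a y z u w => by
      have hta : Nat.add 54 (c a) < 57 := by
        have := hc3 a
        show 54 + c a < 57
        omega
      exact hG.comm hta (f1_lt _ _ _ (hc3 _) (hc3 _) (e1 _ _ _))
        (f1_lt _ _ _ (hc3 _) (hc3 _) (e1 _ _ _))
    apply wlog5 c
    · intro x0 x1 x2 x3 x4 h
      rwa [S60_sw0 _ hv3, S15_sw0 _ hk1 hk2 hk3, S10_sw0 _ s1 s2, S120_sw0] at h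
    · intro x0 x1 x2 x3 x4 h
      rwa [S60_sw1 _ hv3, S15_sw1 _ hk1 hk2 hk3, S10_sw1 _ s1 s2, S120_sw1] at h
    · intro x0 x1 x2 x3 x4 h
      rwa [S60_sw2 _ hv3, S15_sw2 _ hk1 hk2 hk3, S10_sw2 _ s1 s2, S120_sw2] at h
    · intro x0 x1 x2 x3 x4 h
      rwa [S60_sw3 _ hv3, S15_sw3 _ hk1 hk2 hk3, S10_sw3 _ s1 s2, S120_sw3] at h
    · intro x0 x1 x2 x3 x4 c01 c12 c23 c34
      rw [← F10_eq val W c e s1 s2, ← P10_eq pt c e s1 s2]
      have inn_of : ∀ x y z : V, (ind (c x) && inn (c x) (c y) (c z)) = true → e x y z = 0 := by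
        intro x y z h
        rw [Bool.and_eq_true] at h
        obtain ⟨h1, h2⟩ := h
        unfold inn at h2
        rw [Bool.and_eq_true] at h2
        exact hin x y z h1 (Nat.eq_of_beq_eq_true h2.1) (Nat.eq_of_beq_eq_true h2.2)
      have k4_of : ∀ x y z w : V, ¬ k4 (e x y z) (e x y w) (e x z w) (e y z w) = true := by
        intro x y z w h
        unfold k4 at h
        have h1 := Nat.eq_of_beq_eq_true h
        have h2 : (e x y z * e x y w) * (e x z w * e y z w) = 1 := h1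
        rcases hK x y z w with h3 | h3 | h3 | h3 <;> rw [h3] at h2 <;> simp at h2
      exact chk_sound ind val W K lam pt _ _ _ _ _ _ _ _ _ _ _ _ _ _ _
        (hchk _ _ _ _ _ c01 c12 c23 c34 (hc x4))
        (e1 _ _ _) (inn_of _ _ _) (e1 _ _ _) (inn_of _ _ _) (e1 _ _ _) (inn_of _ _ _)
        (e1 _ _ _) (inn_of _ _ _) (e1 _ _ _) (inn_of _ _ _) (e1 _ _ _) (inn_of _ _ _)
        (e1 _ _ _) (inn_of _ _ _) (e1 _ _ _) (inn_of _ _ _) (e1 _ _ _) (inn_of _ _ _)
        (e1 _ _ _) (inn_of _ _ _)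
        (k4_of _ _ _ _) (k4_of _ _ _ _) (k4_of _ _ _ _) (k4_of _ _ _ _) (k4_of _ _ _ _)
  -- summation
  have hsum : ∑ x : Fin 5 → V, (S60 (v3 val c e) (x 0) (x 1) (x 2) (x 3) (x 4) +
      S15 (v1 val c e) (x 0) (x 1) (x 2) (x 3) (x 4) + 9 * W * S10 e (x 0) (x 1) (x 2) (x 3) (x 4)) ≤
      ∑ x : Fin 5 → V, (K +
        lam * S120 (pg pt c e) (x 0) (x 1) (x 2) (x 3) (x 4)) :=
    sum_le_sum fun x _ => key _ _ _ _ _
  rw [sum_add_distrib, sum_add_distrib, sum_add_distrib, ← mul_sum, ← mul_sum, sum_S60, sum_S15,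
    sum_S10, sum_S120, e_sum, sum_const, card_univ, smul_eq_mul, Fintype.card_fun,
    Fintype.card_fin] at hsum
  have h3 := v3_sum hG c hc3 e e1
  have h1 := v1_sum hG c hc3 e e1
  nlinarith [hsum, h3, h1]

/-- All entries of the table agree with the matrices. -/
def tabOK (val : ℕ → ℕ → ℕ → ℕ) (rows : ℕ → List (List ℤ)) (OFF : ℤ) : Bool :=
  allb 57 fun t => allb 24 fun f => allb 24 fun g =>
    decide (Int.ofNat (val t f g) = ent (rows t) f g + OFF)

def psdOK (rows : ℕ → List (List ℤ)) : Bool := allb 57 fun t => psd 24 1 (rows t)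

theorem good_of {val : ℕ → ℕ → ℕ → ℕ} {rows : ℕ → List (List ℤ)} {OFF : ℕ}
    (h1 : tabOK val rows (OFF : ℤ) = true) (h2 : psdOK rows = true) : Good val rows OFF where
  hval := fun t ht f hf g hg => of_decide_eq_true (allb_elim (allb_elim (allb_elim h1 t ht) f hf) g hg)
  hpsd := fun t ht => allb_elim h2 t ht

/-- The check for all sorted colourings with colours below `kc`. -/
def chkAll (ind : ℕ → Bool) (val : ℕ → ℕ → ℕ → ℕ) (W K lam kc : ℕ) (pt : Pat) : Bool :=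
  allb kc fun C0 => allb kc fun C1 => !(Nat.ble C0 C1) ||
    (allb kc fun C2 => !(Nat.ble C1 C2) ||
      (allb kc fun C3 => !(Nat.ble C2 C3) ||
        (allb kc fun C4 => !(Nat.ble C3 C4) || chk ind val W K lam pt C0 C1 C2 C3 C4)))

theorem chk_of_all {ind : ℕ → Bool} {val : ℕ → ℕ → ℕ → ℕ} {W K lam kc : ℕ} {pt : Pat}
    (h : chkAll ind val W K lam kc pt = true) (C0 C1 C2 C3 C4 : ℕ) (h01 : C0 ≤ C1) (h12 : C1 ≤ C2)
    (h23 : C2 ≤ C3) (h34 : C3 ≤ C4) (h4 : C4 < kc) : chk ind val W K lam pt C0 C1 C2 C3 C4 = true := by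
  have g1 := or_elim_le (allb_elim (allb_elim h C0 (by omega)) C1 (by omega)) h01
  have g2 := or_elim_le (allb_elim g1 C2 (by omega)) h12
  have g3 := or_elim_le (allb_elim g2 C3 (by omega)) h23
  exact or_elim_le (allb_elim g3 C4 (by omega)) h34

end Pool.Agent.X45.Abs
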